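import Mathlib

/-! Rank one pieces: a function `u` of the two-colourings of the vertices and the pairs of vertices
which tend to have the same colour under `u`. -/

set_option autoImplicit false

namespace Pool.Agent.L5helper56.LPT

open Finset Real

variable {V : Type} [Fintype V] [DecidableEq V]

/-- the sign of the colour of `a` -/
def sg (χ : V → Bool) (a : V) : ℝ := if χ a then 1 else -1

omit [Fintype V] [DecidableEq V] in
theorem sg_sq (χ : V → Bool) (a : V) : sg χ a * sg χ a = 1 := by
  unfold sg; split_ifs <;> norm_num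

omit [Fintype V] [DecidableEq V] in
theorem sg_cases (χ : V → Bool) (a : V) : sg χ a = 1 ∨ sg χ a = -1 := by
  unfold sg; split_ifs <;> simp

/-- flip the colour of `b` -/
def flipAt (b : V) (χ : V → Bool) : V → Bool := Function.update χ b (!χ b)

omit [Fintype V] in
theorem sg_flip_same (χ : V → Bool) (b : V) : sg (flipAt b χ) b = - sg χ b := by
  unfold sg flipAt
  rw [Function.update_self]
  cases χ b <;> simp

omit [Fintype V] in
theorem sg_flip_ne (χ : V → Bool) (a b : V) (h : a ≠ b) : sg (flipAt b χ) a = sg χ a := by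
  unfold sg flipAt
  rw [Function.update_of_ne h]

omit [Fintype V] in
theorem flip_flip (b : V) (χ : V → Bool) : flipAt b (flipAt b χ) = χ := by
  funext a
  unfold flipAt
  by_cases h : a = b
  · subst h; simp
  · simp [Function.update_of_ne h]

/-- flipping as an equivalence -/
def flipE (b : V) : (V → Bool) ≃ (V → Bool) := ⟨flipAt b, flipAt b, flip_flip b, flip_flip b⟩

/-- the vertices of a list of pairs -/
def verts (l : List (V × V)) : Finset V := l.foldr (fun p s => insert p.1 (insert p.2 s)) ∅

omit [Fintype V] in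
theorem verts_cons (p : V × V) (l : List (V × V)) :
    verts (p :: l) = insert p.1 (insert p.2 (verts l)) := rfl

omit [Fintype V] in
theorem card_verts (l : List (V × V)) : (verts l).card ≤ 2 * l.length := by
  induction l with
  | nil => simp [verts]
  | cons p l ih =>
    rw [verts_cons, List.length_cons]
    have h1 := card_insert_le p.1 (insert p.2 (verts l))
    have h2 := card_insert_le p.2 (verts l)
    omega

/-- every pair brings a new vertex -/
def Fresh : List (V × V) → Prop
  | [] => True
  | p :: l => p.1 ≠ p.2 ∧ p.2 ∉ verts l ∧ Fresh l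

/-- the sum of the agreements -/
def agr (l : List (V × V)) (χ : V → Bool) : ℝ := (l.map fun p => sg χ p.1 * sg χ p.2).sum

omit [Fintype V] [DecidableEq V] in
theorem agr_cons (p : V × V) (l : List (V × V)) (χ : V → Bool) :
    agr (p :: l) χ = sg χ p.1 * sg χ p.2 + agr l χ := by
  simp [agr]

omit [Fintype V] in
theorem agr_flip (l : List (V × V)) (b : V) (hb : b ∉ verts l) (χ : V → Bool) :
    agr l (flipAt b χ) = agr l χ := by
  induction l with
  | nil => simp [agr]
  | cons p l ih =>
    rw [verts_cons, mem_insert, mem_insert] at hb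
    push Not at hb
    rw [agr_cons, agr_cons, ih hb.2.2, sg_flip_ne χ p.1 b hb.1.symm, sg_flip_ne χ p.2 b hb.2.1.symm]

theorem exp_moment (t : ℝ) (l : List (V × V)) (hl : Fresh l) :
    ∑ χ : V → Bool, exp (t * agr l χ) = 2 ^ Fintype.card V * cosh t ^ l.length := by
  induction l with
  | nil => simp [agr]
  | cons p l ih =>
    obtain ⟨h1, h2, h3⟩ := hl
    have ih := ih h3
    have e1 : ∑ χ : V → Bool, exp (t * agr (p :: l) χ) =
        ∑ χ : V → Bool, exp (-(t * (sg χ p.1 * sg χ p.2))) * exp (t * agr l χ) := by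
      rw [← Equiv.sum_comp (flipE p.2)]
      refine sum_congr rfl fun χ _ => ?_
      have e2 : (flipE p.2) χ = flipAt p.2 χ := rfl
      rw [e2, agr_cons, agr_flip l p.2 h2, sg_flip_same, sg_flip_ne χ p.1 p.2 h1, ← exp_add]
      congr 1
      ring
    have e2 : ∑ χ : V → Bool, exp (t * agr (p :: l) χ) =
        ∑ χ : V → Bool, exp (t * (sg χ p.1 * sg χ p.2)) * exp (t * agr l χ) := by
      refine sum_congr rfl fun χ _ => ?_
      rw [agr_cons, ← exp_add]
      congr 1
      ring
    have e3 : 2 * ∑ χ : V → Bool, exp (t * agr (p :: l) χ) =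
        2 * (cosh t * ∑ χ : V → Bool, exp (t * agr l χ)) := by
      have : (2 : ℝ) * ∑ χ : V → Bool, exp (t * agr (p :: l) χ) =
          ∑ χ : V → Bool, exp (t * agr (p :: l) χ) + ∑ χ : V → Bool, exp (t * agr (p :: l) χ) := by
        ring
      rw [this]
      nth_rewrite 1 [e1]
      rw [e2, ← sum_add_distrib, mul_sum, mul_sum]
      refine sum_congr rfl fun χ _ => ?_
      rcases sg_cases χ p.1 with h | h <;> rcases sg_cases χ p.2 with h' | h' <;>
        rw [h, h', Real.cosh_eq] <;> ring_nf
    have e4 := mul_left_cancel₀ (two_ne_zero) e3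
    rw [e4, ih, List.length_cons, pow_succ]
    ring

/-- the correlation of two vertices under `u` -/
noncomputable def corr (u : (V → Bool) → ℝ) (a b : V) : ℝ := ∑ χ, u χ * (sg χ a * sg χ b)

/-- the total mass of `u` -/
noncomputable def tot (u : (V → Bool) → ℝ) : ℝ := ∑ χ, u χ

theorem corr_comm (u : (V → Bool) → ℝ) (a b : V) : corr u a b = corr u b a :=
  sum_congr rfl fun χ _ => by ring

theorem corr_le (u : (V → Bool) → ℝ) (hu : ∀ χ, 0 ≤ u χ) (a b : V) : corr u a b ≤ tot u := by
  refine sum_le_sum fun χ _ => ?_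
  have : sg χ a * sg χ b ≤ 1 := by
    rcases sg_cases χ a with h | h <;> rcases sg_cases χ b with h' | h' <;> rw [h, h'] <;> norm_num
  calc u χ * (sg χ a * sg χ b) ≤ u χ * 1 := mul_le_mul_of_nonneg_left this (hu χ)
    _ = u χ := mul_one _

/-- Long fresh lists of correlated pairs force a small total mass. -/
theorem mass_bound (u : (V → Bool) → ℝ) (hu : ∀ χ, 0 ≤ u χ) (hu3 : ∀ χ, u χ ≤ 3) (c : ℝ)
    (hc : 0 ≤ c) (l : List (V × V)) (hl : Fresh l) (hlc : ∀ p ∈ l, c * tot u ≤ corr u p.1 p.2) :
    tot u * exp (c ^ 2 * l.length / 2) ≤ 3 * 2 ^ Fintype.card V := by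
  have h1 : c * tot u * l.length ≤ ∑ χ, u χ * agr l χ := by
    clear hl
    induction l with
    | nil => simp [agr]
    | cons p l ih =>
      have h2 := ih (fun q hq => hlc q (List.mem_cons_of_mem _ hq))
      have h3 := hlc p List.mem_cons_self
      have e1 : ∑ χ, u χ * agr (p :: l) χ = corr u p.1 p.2 + ∑ χ, u χ * agr l χ := by
        unfold corr
        rw [← sum_add_distrib]
        refine sum_congr rfl fun χ _ => ?_
        rw [agr_cons]; ring
      rw [e1, List.length_cons]
      push_cast
      nlinarith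
  have h2 : exp (c * (c * l.length)) * tot u ≤ ∑ χ, u χ * exp (c * agr l χ) := by
    have h3 : ∀ χ, u χ * (exp (c * (c * l.length)) * (1 + c * agr l χ - c * (c * l.length))) ≤
        u χ * exp (c * agr l χ) := by
      intro χ
      refine mul_le_mul_of_nonneg_left ?_ (hu χ)
      have h4 : c * agr l χ - c * (c * l.length) + 1 ≤ exp (c * agr l χ - c * (c * l.length)) :=
        Real.add_one_le_exp _
      have h5 : exp (c * agr l χ) = exp (c * (c * l.length)) *
          exp (c * agr l χ - c * (c * l.length)) := by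
        rw [← exp_add]; congr 1; ring
      rw [h5]
      refine mul_le_mul_of_nonneg_left ?_ (exp_pos _).le
      linarith
    refine le_trans ?_ (sum_le_sum fun χ _ => h3 χ)
    have e1 : ∑ χ, u χ * (exp (c * (c * l.length)) * (1 + c * agr l χ - c * (c * l.length))) =
        exp (c * (c * l.length)) * (tot u + c * (∑ χ, u χ * agr l χ) - c * (c * l.length) * tot u) := by
      unfold tot
      rw [mul_sum, mul_sum, ← sum_add_distrib, ← sum_sub_distrib, mul_sum]
      refine sum_congr rfl fun χ _ => ?_
      ring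
    rw [e1]
    refine mul_le_mul_of_nonneg_left ?_ (exp_pos _).le
    have h6 := mul_le_mul_of_nonneg_left h1 hc
    nlinarith
  have h3 : ∑ χ, u χ * exp (c * agr l χ) ≤ 3 * (2 ^ Fintype.card V * exp (c ^ 2 / 2) ^ l.length) := by
    calc ∑ χ, u χ * exp (c * agr l χ) ≤ ∑ χ : V → Bool, 3 * exp (c * agr l χ) :=
          sum_le_sum fun χ _ => mul_le_mul_of_nonneg_right (hu3 χ) (exp_pos _).le
      _ = 3 * (2 ^ Fintype.card V * cosh c ^ l.length) := by rw [← mul_sum, exp_moment c l hl]
      _ ≤ _ := by
        have h7 : cosh c ^ l.length ≤ exp (c ^ 2 / 2) ^ l.length :=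
          pow_le_pow_left₀ (Real.cosh_pos c).le (Real.cosh_le_exp_half_sq c) _
        have h8 : (0 : ℝ) < 2 ^ Fintype.card V := by positivity
        nlinarith [mul_le_mul_of_nonneg_left h7 h8.le]
  have h4 : exp (c ^ 2 / 2) ^ l.length = exp (c ^ 2 * l.length / 2) := by
    rw [← Real.exp_nat_mul]; congr 1; ring
  have h5 : exp (c * (c * l.length)) = exp (c ^ 2 * l.length / 2) * exp (c ^ 2 * l.length / 2) := by
    rw [← exp_add]; congr 1; ring
  rw [h4] at h3
  rw [h5] at h2
  have h6 : 0 < exp (c ^ 2 * l.length / 2) := exp_pos _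
  have h7 := h2.trans h3
  have h8 : exp (c ^ 2 * l.length / 2) * (tot u * exp (c ^ 2 * l.length / 2)) ≤
      exp (c ^ 2 * l.length / 2) * (3 * 2 ^ Fintype.card V) := by
    calc _ = exp (c ^ 2 * l.length / 2) * exp (c ^ 2 * l.length / 2) * tot u := by ring
      _ ≤ _ := h7
      _ = _ := by ring
  exact le_of_mul_le_mul_left h8 h6

/-- The vertices which are correlated with another vertex. -/
noncomputable def corrSet (u : (V → Bool) → ℝ) (c : ℝ) : Finset V :=
  by classical exact univ.filter fun w => ∃ a, a ≠ w ∧ c * tot u ≤ corr u a w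

theorem exists_cover (u : (V → Bool) → ℝ) (c : ℝ) :
    ∃ l : List (V × V), Fresh l ∧ (∀ p ∈ l, c * tot u ≤ corr u p.1 p.2) ∧
      corrSet u c ⊆ verts l := by
  classical
  -- lists which are valid
  let P : ℕ → Prop := fun k => ∃ l : List (V × V), Fresh l ∧
    (∀ p ∈ l, c * tot u ≤ corr u p.1 p.2) ∧ l.length = k
  have hb : ∀ k, P k → k ≤ Fintype.card V := by
    rintro k ⟨l, hl, -, rfl⟩
    have : ∀ l : List (V × V), Fresh l → l.length ≤ (verts l).card := by
      intro l
      induction l with
      | nil => intro _; simp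
      | cons p l ih =>
        rintro ⟨h1, h2, h3⟩
        have h4 := ih h3
        rw [verts_cons, List.length_cons]
        have h5 : (insert p.2 (verts l)).card = (verts l).card + 1 := card_insert_of_notMem h2
        have h6 : (insert p.2 (verts l)).card ≤ (insert p.1 (insert p.2 (verts l))).card :=
          card_le_card (subset_insert _ _)
        omega
    exact (this l hl).trans (card_le_univ _)
  have h0 : P 0 := ⟨[], trivial, by simp, rfl⟩
  obtain ⟨k, hk, hmax⟩ : ∃ k, P k ∧ ∀ j, P j → j ≤ k := by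
    refine ⟨Nat.findGreatest P (Fintype.card V), Nat.findGreatest_spec (Nat.zero_le _) h0,
      fun j hj => Nat.le_findGreatest (hb j hj) hj⟩
  obtain ⟨l, h1, h2, h3⟩ := hk
  refine ⟨l, h1, h2, fun w hw => ?_⟩
  unfold corrSet at hw
  rw [mem_filter] at hw
  obtain ⟨-, a, ha, hc⟩ := hw
  by_contra hcon
  have h4 : P (k + 1) := ⟨(a, w) :: l, ⟨ha, hcon, h1⟩, by
    intro p hp
    rcases List.mem_cons.1 hp with h | h
    · subst h; exact hc
    · exact h2 p h, by rw [List.length_cons, h3]⟩
  have := hmax _ h4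
  omega

theorem cube_le_exp (x : ℝ) (hx : 0 ≤ x) : x ^ 3 ≤ 6 * exp x := by
  have h := Real.pow_div_factorial_le_exp x hx 3
  have e : ((Nat.factorial 3 : ℕ) : ℝ) = 6 := by norm_num [Nat.factorial]
  rw [e, div_le_iff₀ (by norm_num)] at h
  linarith

/-- The mass times the number of triples of correlated vertices is bounded. -/
theorem mass_triples (u : (V → Bool) → ℝ) (hu : ∀ χ, 0 ≤ u χ) (hu3 : ∀ χ, u χ ≤ 3) (c : ℝ)
    (hc : 0 < c) :
    tot u * (((corrSet u c).powersetCard 3).card : ℝ) ≤ 192 / c ^ 6 * 2 ^ Fintype.card V := by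
  obtain ⟨l, h1, h2, h3⟩ := exists_cover u c
  have hm := mass_bound u hu hu3 c hc.le l h1 h2
  have h4 : (((corrSet u c).powersetCard 3).card : ℝ) ≤ (2 * l.length : ℝ) ^ 3 / 6 := by
    rw [card_powersetCard]
    have h5 : (corrSet u c).card ≤ 2 * l.length := (card_le_card h3).trans (card_verts l)
    have h6 : (((corrSet u c).card.choose 3 : ℕ) : ℝ) ≤ ((2 * l.length).choose 3 : ℕ) := by
      exact_mod_cast Nat.choose_le_choose 3 h5
    have h7 := Nat.choose_le_pow_div (α := ℝ) 3 (2 * l.length)
    refine h6.trans (h7.trans (le_of_eq ?_))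
    push_cast
    norm_num [Nat.factorial]
  have ht : 0 ≤ tot u := sum_nonneg fun χ _ => hu χ
  set x : ℝ := c ^ 2 * l.length / 2 with hx
  have hx0 : 0 ≤ x := by positivity
  have h8 := cube_le_exp x hx0
  have h9 : (2 * l.length : ℝ) ^ 3 / 6 = (64 / 6) / c ^ 6 * x ^ 3 := by
    rw [hx]; field_simp; ring
  calc tot u * (((corrSet u c).powersetCard 3).card : ℝ) ≤ tot u * ((2 * l.length : ℝ) ^ 3 / 6) :=
        mul_le_mul_of_nonneg_left h4 ht
    _ = (64 / 6) / c ^ 6 * (tot u * x ^ 3) := by rw [h9]; ring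
    _ ≤ (64 / 6) / c ^ 6 * (tot u * (6 * exp x)) := by gcongr
    _ = 64 / c ^ 6 * (tot u * exp x) := by ring
    _ ≤ 64 / c ^ 6 * (3 * 2 ^ Fintype.card V) := by gcongr
    _ = _ := by ring

end Pool.Agent.L5helper56.LPT
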