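import Pool.Agent.L5helper56.LPT.Rank
import Pool.Agent.H575R2.Farkas

/-! Linear programming formulations of triangle detection. -/

set_option autoImplicit false

namespace Pool.Agent.L5helper56.LPT

open Finset Real

/-- the number of edges of `G` with both ends in `T` -/
noncomputable def inside {n : ℕ} (G : SimpleGraph (Fin n)) (T : Finset (Fin n)) : ℕ :=
  {e ∈ G.edgeSet | ∀ v ∈ e, v ∈ T}.ncard

open Classical in
theorem inside_triple {n : ℕ} (G : SimpleGraph (Fin n)) (a b c : Fin n) (hab : a ≠ b)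
    (hac : a ≠ c) (hbc : b ≠ c) : inside G {a, b, c} =
      (if G.Adj a b then 1 else 0) + (if G.Adj a c then 1 else 0) + (if G.Adj b c then 1 else 0) := by
  have hset : {e ∈ G.edgeSet | ∀ v ∈ e, v ∈ ({a, b, c} : Finset (Fin n))} =
      ((({s(a, b), s(a, c), s(b, c)} : Finset (Sym2 (Fin n))).filter (· ∈ G.edgeSet) :
        Finset (Sym2 (Fin n))) : Set (Sym2 (Fin n))) := by
    ext e
    rw [mem_coe, mem_filter]
    refine Sym2.ind (fun x y => ?_) e
    simp only [Set.mem_setOf_eq, SimpleGraph.mem_edgeSet, mem_insert, mem_singleton]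
    constructor
    · rintro ⟨h1, h2⟩
      have hx := h2 x (Sym2.mem_mk_left x y)
      have hy := h2 y (Sym2.mem_mk_right x y)
      have hne := h1.ne
      refine ⟨?_, h1⟩
      rcases hx with rfl | rfl | rfl <;> rcases hy with rfl | rfl | rfl <;>
        first
          | exact absurd rfl hne
          | simp [Sym2.eq_swap]
    · rintro ⟨h1, h2⟩
      refine ⟨h2, ?_⟩
      intro v hv
      rw [Sym2.mem_iff] at hv
      rcases h1 with h1 | h1 | h1 <;> rw [Sym2.eq_iff] at h1 <;>
        rcases h1 with ⟨rfl, rfl⟩ | ⟨rfl, rfl⟩ <;> rcases hv with rfl | rfl <;> simp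
  unfold inside
  rw [hset, Set.ncard_coe_finset]
  have d1 : s(a, b) ≠ s(a, c) := by
    intro h
    rw [Sym2.eq_iff] at h
    rcases h with ⟨-, h⟩ | ⟨h, h'⟩
    · exact hbc h
    · exact hac h
  have d2 : s(a, b) ≠ s(b, c) := by
    intro h
    rw [Sym2.eq_iff] at h
    rcases h with ⟨h, -⟩ | ⟨h, -⟩
    · exact hab h
    · exact hac h
  have d3 : s(a, c) ≠ s(b, c) := by
    intro h
    rw [Sym2.eq_iff] at h
    rcases h with ⟨h, -⟩ | ⟨h, -⟩
    · exact hab h
    · exact hac h
  rw [card_filter, sum_insert (by simp [d1, d2]), sum_insert (by simp [d3]), sum_singleton]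
  simp only [SimpleGraph.mem_edgeSet]
  ring

theorem inside_le {n : ℕ} (G : SimpleGraph (Fin n)) (hG : G.CliqueFree 3) (T : Finset (Fin n))
    (hT : T.card = 3) : inside G T ≤ 2 := by
  classical
  obtain ⟨a, b, c, hab, hac, hbc, rfl⟩ := card_eq_three.1 hT
  rw [inside_triple G a b c hab hac hbc]
  have h : ¬ (G.Adj a b ∧ G.Adj a c ∧ G.Adj b c) := by
    intro h
    exact hG {a, b, c} (SimpleGraph.is3Clique_triple_iff.2 h)
  split_ifs <;> simp_all

/-- The complete bipartite graph on `D` between the two colour classes of `χ`. -/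
def bip {n : ℕ} (D : Finset (Fin n)) (χ : D → Bool) : SimpleGraph (Fin n) where
  Adj a b := ∃ (ha : a ∈ D) (hb : b ∈ D), χ ⟨a, ha⟩ ≠ χ ⟨b, hb⟩
  symm := ⟨fun _ _ ⟨ha, hb, h⟩ => ⟨hb, ha, h.symm⟩⟩
  loopless := ⟨fun _ ⟨_, _, h⟩ => h rfl⟩

theorem bip_free {n : ℕ} (D : Finset (Fin n)) (χ : D → Bool) : (bip D χ).CliqueFree 3 := by
  intro t ht
  rw [SimpleGraph.is3Clique_iff] at ht
  obtain ⟨a, b, c, ⟨ha, hb, h1⟩, ⟨_, hc, h2⟩, ⟨_, _, h3⟩, -⟩ := ht
  revert h1 h2 h3
  cases χ ⟨a, ha⟩ <;> cases χ ⟨b, hb⟩ <;> cases χ ⟨c, hc⟩ <;> simp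

theorem bip_inside {n : ℕ} (D : Finset (Fin n)) (χ : D → Bool) (T : Finset D) (hT : T.card = 3) :
    (3 + Y T χ) / 2 = 3 - (inside (bip D χ) (T.map (Function.Embedding.subtype _)) : ℝ) := by
  classical
  obtain ⟨a, b, c, hab, hac, hbc, rfl⟩ := card_eq_three.1 hT
  have e : ({a, b, c} : Finset D).map (Function.Embedding.subtype _) =
      {(a : Fin n), (b : Fin n), (c : Fin n)} := by
    simp
  have k1 : (a : Fin n) ≠ b := fun h => hab (Subtype.ext h)
  have k2 : (a : Fin n) ≠ c := fun h => hac (Subtype.ext h)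
  have k3 : (b : Fin n) ≠ c := fun h => hbc (Subtype.ext h)
  have adj : ∀ x y : D, (bip D χ).Adj (x : Fin n) (y : Fin n) ↔ χ x ≠ χ y := by
    intro x y
    constructor
    · rintro ⟨_, _, h⟩; exact h
    · intro h; exact ⟨x.2, y.2, h⟩
  rw [e, inside_triple _ _ _ _ k1 k2 k3, Y_eq a b c hab hac hbc]
  simp only [adj]
  unfold sg
  cases χ a <;> cases χ b <;> cases χ c <;> norm_num

/-- A linear program with `s` inequalities and `e` equations in `d` variables for the graphs of the
class `𝒢`: the points `point T` of the triples `T` are feasible, the value of the objective function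
of `G` there is the number of edges of `G` in `T`, and the objective function of a triangle-free graph
`G` is at most `3 - γ`. -/
structure LPFormulation (n s : ℕ) (γ : ℝ) (𝒢 : Set (SimpleGraph (Fin n))) where
  /-- number of variables -/
  d : ℕ
  /-- number of equations -/
  e : ℕ
  /-- left sides of the inequalities -/
  A : Fin s → Fin d → ℝ
  /-- right sides of the inequalities -/
  b : Fin s → ℝ
  /-- left sides of the equations -/
  C : Fin e → Fin d → ℝ
  /-- right sides of the equations -/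
  f : Fin e → ℝ
  /-- the feasible solutions of the triples -/
  point : Finset (Fin n) → Fin d → ℝ
  /-- the objective functions -/
  obj : SimpleGraph (Fin n) → Fin d → ℝ
  /-- the constants of the objective functions -/
  const : SimpleGraph (Fin n) → ℝ
  point_le : ∀ T : Finset (Fin n), T.card = 3 → ∀ i, A i ⬝ᵥ point T ≤ b i
  point_eq : ∀ T : Finset (Fin n), T.card = 3 → ∀ j, C j ⬝ᵥ point T = f j
  exact : ∀ G ∈ 𝒢, ∀ T : Finset (Fin n), T.card = 3 → obj G ⬝ᵥ point T + const G = inside G T
  sound : ∀ G ∈ 𝒢, G.CliqueFree 3 → ∀ y : Fin d → ℝ, (∀ i, A i ⬝ᵥ y ≤ b i) →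
    (∀ j, C j ⬝ᵥ y = f j) → obj G ⬝ᵥ y + const G ≤ 3 - γ

/-- a row as a linear map -/
noncomputable def row {d : ℕ} (a : Fin d → ℝ) : (Fin d → ℝ) →ₗ[ℝ] ℝ :=
  { toFun := fun y => a ⬝ᵥ y
    map_add' := fun x y => dotProduct_add a x y
    map_smul' := fun r x => by simp [dotProduct_smul] }

theorem row_apply {d : ℕ} (a y : Fin d → ℝ) : row a y = a ⬝ᵥ y := rfl

/-- Farkas' lemma for one graph. -/
theorem farkas_graph {n s : ℕ} {γ : ℝ} {𝒢 : Set (SimpleGraph (Fin n))}
    (F : LPFormulation n s γ 𝒢) (G : SimpleGraph (Fin n)) (hG : G ∈ 𝒢) (hfree : G.CliqueFree 3)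
    (T0 : Finset (Fin n)) (hT0 : T0.card = 3) :
    ∃ (w0 : ℝ) (w : Fin s → ℝ), 0 ≤ w0 ∧ (∀ i, 0 ≤ w i) ∧
      ∀ T : Finset (Fin n), T.card = 3 →
        3 - γ - inside G T = w0 + ∑ i, w i * (F.b i - F.A i ⬝ᵥ F.point T) := by
  let W : Submodule ℝ (Fin F.d → ℝ) := ⨅ j, LinearMap.ker (row (F.C j))
  have hW : ∀ y, y ∈ W ↔ ∀ j, F.C j ⬝ᵥ y = 0 := by
    intro y
    simp only [W, Submodule.mem_iInf, LinearMap.mem_ker, row_apply]
  obtain ⟨w0, w, h0, hw, hx⟩ := H575R2.farkas_affine s
    (fun i => (row (F.A i)).comp W.subtype) (fun i => F.b i - F.A i ⬝ᵥ F.point T0)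
    ((row (F.obj G)).comp W.subtype) (3 - γ - F.const G - F.obj G ⬝ᵥ F.point T0) 0
    (fun i => by
      have := F.point_le T0 hT0 i
      simp only [map_zero]
      linarith)
    (fun x hx => by
      have h1 := F.sound G hG hfree (F.point T0 + x) (fun i => by
          have := hx i
          simp only [LinearMap.comp_apply, Submodule.subtype_apply, row_apply] at this
          rw [dotProduct_add]
          linarith)
        (fun j => by
          rw [dotProduct_add, F.point_eq T0 hT0 j, (hW x.1).1 x.2 j, add_zero])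
      simp only [LinearMap.comp_apply, Submodule.subtype_apply, row_apply]
      rw [dotProduct_add] at h1
      linarith)
  refine ⟨w0, w, h0, hw, fun T hT => ?_⟩
  have hmem : F.point T - F.point T0 ∈ W := by
    rw [hW]
    intro j
    rw [dotProduct_sub, F.point_eq T hT j, F.point_eq T0 hT0 j, sub_self]
  have h1 := hx ⟨F.point T - F.point T0, hmem⟩
  simp only [LinearMap.comp_apply, Submodule.subtype_apply, row_apply, dotProduct_sub] at h1
  have h2 := F.exact G hG T hT
  rw [← h2]
  have h3 : 3 - γ - (F.obj G ⬝ᵥ F.point T + F.const G) =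
      3 - γ - F.const G - F.obj G ⬝ᵥ F.point T0 - (F.obj G ⬝ᵥ F.point T - F.obj G ⬝ᵥ F.point T0) := by
    ring
  rw [h3, h1]
  congr 1
  refine Finset.sum_congr rfl fun i _ => ?_
  ring

theorem lower {n s : ℕ} {γ : ℝ} {𝒢 : Set (SimpleGraph (Fin n))} (hγ : 0 < γ) (hγ1 : γ ≤ 1)
    (F : LPFormulation n s γ 𝒢) (D : Finset (Fin n))
    (hD : (1 - γ / 24) * 2 ^ D.card ≤ ({χ : D → Bool | bip D χ ∈ 𝒢}.ncard : ℝ)) :
    γ ^ 7 * (D.card.choose 3 : ℝ) ≤ 10 ^ 8 * ((s : ℝ) + 1) := by
  classical
  by_cases hD3 : D.card < 3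
  · rw [Nat.choose_eq_zero_of_lt hD3]
    have : (0 : ℝ) ≤ (s : ℝ) := Nat.cast_nonneg s
    simp only [Nat.cast_zero, mul_zero]
    linarith
  · push Not at hD3
    obtain ⟨T0, hT0D, hT0⟩ := exists_subset_card_eq hD3
    let X : Finset (D → Bool) := univ.filter fun χ => bip D χ ∈ 𝒢
    have hXc : ({χ : D → Bool | bip D χ ∈ 𝒢}.ncard : ℝ) = X.card := by
      have : {χ : D → Bool | bip D χ ∈ 𝒢} = (X : Set (D → Bool)) := by
        ext χ; simp [X]
      rw [this, Set.ncard_coe_finset]
    have hfar : ∀ χ : D → Bool, ∃ (w0 : ℝ) (w : Fin s → ℝ), χ ∈ X → 0 ≤ w0 ∧ (∀ i, 0 ≤ w i) ∧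
        ∀ T : Finset (Fin n), T.card = 3 →
          3 - γ - inside (bip D χ) T = w0 + ∑ i, w i * (F.b i - F.A i ⬝ᵥ F.point T) := by
      intro χ
      by_cases h : χ ∈ X
      · obtain ⟨w0, w, h1⟩ := farkas_graph F (bip D χ) (mem_filter.1 h).2 (bip_free D χ) T0 hT0
        exact ⟨w0, w, fun _ => h1⟩
      · exact ⟨0, fun _ => 0, fun h' => absurd h' h⟩
    choose w0 w hw using hfar
    let mp : Finset D → Finset (Fin n) := fun T => T.map (Function.Embedding.subtype _)
    have hmp : ∀ T : Finset D, T.card = 3 → (mp T).card = 3 := fun T hT => by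
      simp only [mp, card_map, hT]
    have key := rank_bound (V := D) γ hγ hγ1 X
      (by rw [Fintype.card_coe, ← hXc]; exact hD) (ι := Option (Fin s))
      (fun i χ => match i with
        | none => w0 χ
        | some i => w χ i)
      (fun i T => match i with
        | none => 1
        | some i => F.b i - F.A i ⬝ᵥ F.point (mp T))
      (fun i χ hχ => by
        cases i with
        | none => exact (hw χ hχ).1
        | some i => exact (hw χ hχ).2.1 i)
      (fun i T hT => by
        cases i with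
        | none => exact zero_le_one
        | some i =>
          have := F.point_le (mp T) (hmp T hT) i
          show 0 ≤ F.b i - F.A i ⬝ᵥ F.point (mp T)
          linarith)
      (fun χ hχ T hT => by
        rw [Fintype.sum_option]
        have h1 := (hw χ hχ).2.2 (mp T) (hmp T hT)
        have h2 := bip_inside D χ T hT
        show w0 χ * 1 + ∑ i, w χ i * (F.b i - F.A i ⬝ᵥ F.point (mp T)) = _
        rw [mul_one, ← h1, h2]
        ring)
    rw [Fintype.card_coe, Fintype.card_option, Fintype.card_fin] at key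
    push_cast at key
    exact key

/-- the trivial linear program -/
theorem upper (n : ℕ) (γ : ℝ) (hγ1 : γ ≤ 1) :
    Nonempty (LPFormulation n (n.choose 3) γ Set.univ) := by
  classical
  have hcard : Fintype.card {T : Finset (Fin n) // T.card = 3} = n.choose 3 := by
    rw [Fintype.card_finset_len, Fintype.card_fin]
  let φ : Fin (n.choose 3) ≃ {T : Finset (Fin n) // T.card = 3} :=
    (Fintype.equivFinOfCardEq hcard).symm
  refine ⟨{ d := n.choose 3, e := 1
            A := fun i => Pi.single i (-1), b := fun _ => 0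
            C := fun _ _ => 1, f := fun _ => 1
            point := fun T i => if (φ i).1 = T then 1 else 0
            obj := fun G i => inside G (φ i).1
            const := fun _ => 0
            point_le := ?_, point_eq := ?_, exact := ?_, sound := ?_ }⟩
  · intro T _ i
    rw [single_dotProduct]
    split_ifs <;> norm_num
  · intro T hT j
    simp only [dotProduct, one_mul]
    rw [Finset.sum_eq_single (φ.symm ⟨T, hT⟩)]
    · simp
    · intro i _ hi
      rw [if_neg]
      intro h
      exact hi (by rw [Equiv.eq_symm_apply]; exact Subtype.ext h)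
    · intro h; exact absurd (mem_univ _) h
  · intro G _ T hT
    simp only [dotProduct, add_zero]
    rw [Finset.sum_eq_single (φ.symm ⟨T, hT⟩)]
    · simp
    · intro i _ hi
      rw [if_neg, mul_zero]
      intro h
      exact hi (by rw [Equiv.eq_symm_apply]; exact Subtype.ext h)
    · intro h; exact absurd (mem_univ _) h
  · intro G _ hG y hy1 hy2
    have h0 : ∀ i, 0 ≤ y i := by
      intro i
      have := hy1 i
      rw [single_dotProduct] at this
      linarith
    have h1 : ∑ i, y i = 1 := by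
      have := hy2 0
      simpa [dotProduct] using this
    have h2 : ∑ i, (inside G (φ i).1 : ℝ) * y i ≤ ∑ i, 2 * y i := by
      refine sum_le_sum fun i _ => mul_le_mul_of_nonneg_right ?_ (h0 i)
      exact_mod_cast inside_le G hG (φ i).1 (φ i).2
    rw [← mul_sum, h1] at h2
    simp only [dotProduct]
    linarith

end Pool.Agent.L5helper56.LPT
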