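import Pool.Agent.L5helper56.LPT.Form

/-! Monotone linear programs for triangle detection. -/

set_option autoImplicit false

namespace Pool.Agent.L5helper56.LPT

open Finset Real

section
variable {V : Type} [Fintype V] [DecidableEq V]

/-- The rank of a nonnegative matrix with a large mass on the triples of one colour. -/
theorem rank_core (c δ : ℝ) (hc0 : 0 < c) (M : (V → Bool) → Finset V → ℝ)
    (hM3 : ∀ χ, ∀ T : Finset V, T.card = 3 → M χ T ≤ 3)
    (hMs : ∀ T : Finset V, T.card = 3 →
      δ * 2 ^ Fintype.card V ≤ ∑ χ, M χ T * (Y T χ - 1 - c)) {ι : Type} [Fintype ι]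
    (u : ι → (V → Bool) → ℝ) (v : ι → Finset V → ℝ) (hu : ∀ i χ, 0 ≤ u i χ)
    (hv : ∀ i, ∀ T : Finset V, T.card = 3 → 0 ≤ v i T)
    (hM : ∀ χ, ∀ T : Finset V, T.card = 3 → ∑ i, u i χ * v i T = M χ T) :
    δ * ((Fintype.card V).choose 3 : ℝ) ≤ 24576 / c ^ 6 * (Fintype.card ι : ℝ) := by
  classical
  set n := Fintype.card V with hn
  have h2n : (0 : ℝ) < 2 ^ n := by positivity
  have hlow : δ * (n.choose 3 : ℝ) * 2 ^ n ≤
      ∑ T ∈ (univ : Finset V).powersetCard 3, ∑ χ, M χ T * (Y T χ - 1 - c) := by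
    have h2 := sum_le_sum (s := (univ : Finset V).powersetCard 3)
      (fun T hT => hMs T (mem_powersetCard.1 hT).2)
    rw [sum_const, card_powersetCard, card_univ, nsmul_eq_mul] at h2
    calc δ * (n.choose 3 : ℝ) * 2 ^ n = ((Fintype.card V).choose 3 : ℝ) * (δ * 2 ^ n) := by
          rw [hn]; ring
      _ ≤ _ := h2
  have hup : ∑ T ∈ (univ : Finset V).powersetCard 3, ∑ χ, M χ T * (Y T χ - 1 - c) ≤
      (Fintype.card ι : ℝ) * (384 / (c / 2) ^ 6 * 2 ^ n) := by
    have e1 : ∑ T ∈ (univ : Finset V).powersetCard 3, ∑ χ, M χ T * (Y T χ - 1 - c) =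
        ∑ i, ∑ T ∈ (univ : Finset V).powersetCard 3, v i T * ∑ χ, u i χ * (Y T χ - 1 - c) := by
      conv_rhs => rw [sum_comm]
      refine Finset.sum_congr rfl fun T hT => ?_
      have hT3 := (mem_powersetCard.1 hT).2
      have e2 : ∀ i, v i T * ∑ χ, u i χ * (Y T χ - 1 - c) =
          ∑ χ, (u i χ * v i T) * (Y T χ - 1 - c) := by
        intro i
        rw [mul_sum]
        exact Finset.sum_congr rfl fun χ _ => by ring
      rw [Finset.sum_congr rfl (fun i (_ : i ∈ (univ : Finset ι)) => e2 i), sum_comm]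
      refine Finset.sum_congr rfl fun χ _ => ?_
      rw [← sum_mul, hM χ T hT3]
    rw [e1]
    have h1 : ∀ i ∈ (univ : Finset ι), ∑ T ∈ (univ : Finset V).powersetCard 3,
          v i T * ∑ χ, u i χ * (Y T χ - 1 - c) ≤ 384 / (c / 2) ^ 6 * 2 ^ n := by
      intro i _
      have hB : (0 : ℝ) ≤ 384 / (c / 2) ^ 6 * 2 ^ n := by positivity
      by_cases hz : ∀ T ∈ (univ : Finset V).powersetCard 3, v i T = 0
      · have hs : ∑ T ∈ (univ : Finset V).powersetCard 3,
            v i T * ∑ χ, u i χ * (Y T χ - 1 - c) = 0 := by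
          refine Finset.sum_eq_zero fun T hT => ?_
          rw [hz T hT, zero_mul]
        rw [hs]
        exact hB
      · push Not at hz
        obtain ⟨T1, hT1, hv1⟩ := hz
        obtain ⟨T0, hT0, hmax⟩ := exists_max_image ((univ : Finset V).powersetCard 3)
          (fun T => v i T) ⟨T1, hT1⟩
        have hT03 := (mem_powersetCard.1 hT0).2
        have hm : 0 < v i T0 := by
          have h3 := hmax T1 hT1
          have h4 := hv i T1 (mem_powersetCard.1 hT1).2
          have h5 : 0 < v i T1 := lt_of_le_of_ne h4 (Ne.symm hv1)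
          linarith
        have h3 := piece_bound (fun χ => u i χ * v i T0)
          (fun χ => mul_nonneg (hu i χ) hm.le)
          (fun χ => by
            beta_reduce
            refine le_trans ?_ (hM3 χ T0 hT03)
            rw [← hM χ T0 hT03]
            exact single_le_sum (f := fun i => u i χ * v i T0)
              (fun j _ => mul_nonneg (hu j χ) (hv j T0 hT03)) (mem_univ i))
          (fun T => v i T / v i T0)
          (fun T hT => ⟨div_nonneg (hv i T hT) hm.le, by
            rw [div_le_one hm]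
            exact hmax T (mem_powersetCard.2 ⟨subset_univ _, hT⟩)⟩) c hc0
        refine le_trans (le_of_eq ?_) h3
        refine Finset.sum_congr rfl fun T _ => ?_
        have e3 : ∑ χ, (u i χ * v i T0) * (Y T χ - 1 - c) =
            v i T0 * ∑ χ, u i χ * (Y T χ - 1 - c) := by
          rw [mul_sum]
          exact Finset.sum_congr rfl fun χ _ => by ring
        rw [e3, ← mul_assoc, div_mul_cancel₀ _ hm.ne']
    have h2 := sum_le_sum h1
    rw [sum_const, card_univ, nsmul_eq_mul] at h2
    exact h2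
  have h3 := hlow.trans hup
  have h5 : δ * (n.choose 3 : ℝ) * 2 ^ n ≤
      ((Fintype.card ι : ℝ) * (384 / (c / 2) ^ 6)) * 2 ^ n := by
    rw [mul_assoc (Fintype.card ι : ℝ)]; exact h3
  have h4 := le_of_mul_le_mul_right h5 h2n
  have h6 : 384 / (c / 2) ^ 6 = 24576 / c ^ 6 := by
    field_simp; norm_num
  rw [h6, mul_comm (Fintype.card ι : ℝ)] at h4
  exact h4

theorem quad_nonneg (x y a b : V) (hxy : x ≠ y) (hab : a ≠ b) :
    0 ≤ ∑ χ : V → Bool, sg χ x * sg χ y * (sg χ a * sg χ b) := by
  have flipz : ∀ w : V, (∀ χ : V → Bool, sg (flipAt w χ) x * sg (flipAt w χ) y *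
      (sg (flipAt w χ) a * sg (flipAt w χ) b) = -(sg χ x * sg χ y * (sg χ a * sg χ b))) →
      ∑ χ : V → Bool, sg χ x * sg χ y * (sg χ a * sg χ b) = 0 := by
    intro w hw
    have h : ∑ χ : V → Bool, sg χ x * sg χ y * (sg χ a * sg χ b) =
        ∑ χ : V → Bool, -(sg χ x * sg χ y * (sg χ a * sg χ b)) := by
      rw [← Equiv.sum_comp (flipE w)]
      exact Finset.sum_congr rfl fun χ _ => hw χ
    rw [sum_neg_distrib] at h
    linarith
  by_cases h1 : x = a
  · by_cases h2 : y = b
    · subst h1; subst h2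
      refine sum_nonneg fun χ _ => ?_
      exact mul_self_nonneg _
    · refine le_of_eq (flipz y fun χ => ?_).symm
      rw [sg_flip_same, sg_flip_ne χ x y hxy, sg_flip_ne χ a y (by rw [← h1]; exact hxy),
        sg_flip_ne χ b y (Ne.symm h2)]
      ring
  · by_cases h2 : x = b
    · by_cases h3 : y = a
      · subst h2; subst h3
        refine sum_nonneg fun χ _ => ?_
        have : sg χ x * sg χ y * (sg χ y * sg χ x) = (sg χ x * sg χ y) * (sg χ x * sg χ y) := by ring
        rw [this]
        exact mul_self_nonneg _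
      · refine le_of_eq (flipz y fun χ => ?_).symm
        rw [sg_flip_same, sg_flip_ne χ x y hxy, sg_flip_ne χ a y (Ne.symm h3),
          sg_flip_ne χ b y (by rw [← h2]; exact hxy)]
        ring
    · refine le_of_eq (flipz x fun χ => ?_).symm
      rw [sg_flip_same, sg_flip_ne χ y x hxy.symm, sg_flip_ne χ a x (Ne.symm h1),
        sg_flip_ne χ b x (Ne.symm h2)]
      ring

theorem quad_same (a b : V) :
    ∑ χ : V → Bool, sg χ a * sg χ b * (sg χ a * sg χ b) = 2 ^ Fintype.card V := by
  rw [← sum_one]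
  refine Finset.sum_congr rfl fun χ _ => ?_
  have h1 := sg_sq χ a
  have h2 := sg_sq χ b
  calc sg χ a * sg χ b * (sg χ a * sg χ b) = (sg χ a * sg χ a) * (sg χ b * sg χ b) := by ring
    _ = 1 := by rw [h1, h2, one_mul]

open Classical in
/-- The indicator of different colours against the functional. -/
theorem cut_le (x y : V) (hxy : x ≠ y) (c : ℝ) (hc : 0 ≤ c) (T : Finset V) (hT : T.card = 3) :
    ∑ χ : V → Bool, (if χ x ≠ χ y then (1 : ℝ) else 0) * (Y T χ - 1 - c) ≤
      if x ∈ T ∧ y ∈ T then -((1 + c / 2) * 2 ^ Fintype.card V) else 0 := by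
  have e1 : ∀ χ : V → Bool, (if χ x ≠ χ y then (1 : ℝ) else 0) = (1 - sg χ x * sg χ y) / 2 := by
    intro χ
    unfold sg
    cases χ x <;> cases χ y <;> norm_num
  have h2n : (0 : ℝ) < 2 ^ Fintype.card V := by positivity
  obtain ⟨p, q, r, hpq, hpr, hqr, rfl⟩ := card_eq_three.1 hT
  have e2 : ∑ χ : V → Bool, (if χ x ≠ χ y then (1 : ℝ) else 0) * (Y {p, q, r} χ - 1 - c) =
      (-((1 + c) * 2 ^ Fintype.card V) -
        (∑ χ : V → Bool, sg χ x * sg χ y * (sg χ p * sg χ q) +
          ∑ χ : V → Bool, sg χ x * sg χ y * (sg χ q * sg χ r) +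
          ∑ χ : V → Bool, sg χ x * sg χ y * (sg χ r * sg χ p))) / 2 := by
    have h3 : ∀ χ : V → Bool, (if χ x ≠ χ y then (1 : ℝ) else 0) * (Y {p, q, r} χ - 1 - c) =
        (Y {p, q, r} χ - (1 + c) * 1 + (1 + c) * (sg χ x * sg χ y) -
          (sg χ x * sg χ y * (sg χ p * sg χ q) + sg χ x * sg χ y * (sg χ q * sg χ r) +
            sg χ x * sg χ y * (sg χ r * sg χ p))) / 2 := by
      intro χ
      rw [e1, Y_eq p q r hpq hpr hqr]
      ring
    rw [Finset.sum_congr rfl (fun χ _ => h3 χ), ← Finset.sum_div, sum_sub_distrib, sum_add_distrib,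
      sum_sub_distrib, ← mul_sum, ← mul_sum, sum_Y _ hT, sum_pair x y hxy, sum_one,
      sum_add_distrib, sum_add_distrib]
    ring
  have k1 := quad_nonneg x y p q hxy hpq
  have k2 := quad_nonneg x y q r hxy hqr
  have k3 := quad_nonneg x y r p hxy hpr.symm
  rw [e2]
  split_ifs with h
  · obtain ⟨hx, hy⟩ := h
    have key : 2 ^ Fintype.card V ≤ ∑ χ : V → Bool, sg χ x * sg χ y * (sg χ p * sg χ q) +
          ∑ χ : V → Bool, sg χ x * sg χ y * (sg χ q * sg χ r) +
          ∑ χ : V → Bool, sg χ x * sg χ y * (sg χ r * sg χ p) := by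
      rw [mem_insert, mem_insert, mem_singleton] at hx hy
      have sw : ∀ a b : V, ∑ χ : V → Bool, sg χ a * sg χ b * (sg χ b * sg χ a) =
          2 ^ Fintype.card V := by
        intro a b
        rw [← quad_same a b]
        exact Finset.sum_congr rfl fun χ _ => by ring
      rcases hx with rfl | rfl | rfl <;> rcases hy with rfl | rfl | rfl
      · exact absurd rfl hxy
      · have := quad_same x y; linarith
      · have := sw x y; linarith
      · have := sw x y; linarith
      · exact absurd rfl hxy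
      · have := quad_same x y; linarith
      · have := quad_same x y; linarith
      · have := sw x y; linarith
      · exact absurd rfl hxy
    linarith
  · have : 0 ≤ c * 2 ^ Fintype.card V := by positivity
    linarith

end

/-- the triangle on three vertices -/
def tri {n : ℕ} (T : Finset (Fin n)) : SimpleGraph (Fin n) where
  Adj a b := a ∈ T ∧ b ∈ T ∧ a ≠ b
  symm := ⟨fun _ _ ⟨h1, h2, h3⟩ => ⟨h2, h1, h3.symm⟩⟩
  loopless := ⟨fun _ ⟨_, _, h⟩ => h rfl⟩

theorem tri_clique {n : ℕ} (T : Finset (Fin n)) (hT : T.card = 3) : ¬ (tri T).CliqueFree 3 := by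
  intro h
  refine h T ⟨?_, hT⟩
  intro a ha b hb hab
  exact ⟨ha, hb, hab⟩

/-- A monotone linear program with gap `γ`, with `s` inequalities and `e` equations in `d` variables,
for the graphs of the class `𝒢`. The objective function of a graph `G` is the sum of the functions
`coef e' ⬝ᵥ y + const e'` over the edges `e'` of `G`, which are nonnegative at all feasible points `y`.
For the graphs of the class, the objective function is at least `1 + γ` at some feasible point if the
graph contains a triangle, and at most `1` at all feasible points if it is triangle-free. -/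
structure MonotoneLP (n s : ℕ) (γ : ℝ) (𝒢 : Set (SimpleGraph (Fin n))) where
  /-- number of variables -/
  d : ℕ
  /-- number of equations -/
  e : ℕ
  /-- left sides of the inequalities -/
  A : Fin s → Fin d → ℝ
  /-- right sides of the inequalities -/
  b : Fin s → ℝ
  /-- left sides of the equations -/
  C : Fin e → Fin d → ℝ
  /-- right sides of the equations -/
  f : Fin e → ℝ
  /-- the coefficients of the function of an edge -/
  coef : Sym2 (Fin n) → Fin d → ℝ
  /-- the constant of the function of an edge -/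
  const : Sym2 (Fin n) → ℝ
  nonneg : ∀ e' : Sym2 (Fin n), ∀ y : Fin d → ℝ, (∀ i, A i ⬝ᵥ y ≤ b i) → (∀ j, C j ⬝ᵥ y = f j) →
    0 ≤ coef e' ⬝ᵥ y + const e'
  large : ∀ G ∈ 𝒢, ¬ G.CliqueFree 3 →
    ∃ y : Fin d → ℝ, (∀ i, A i ⬝ᵥ y ≤ b i) ∧ (∀ j, C j ⬝ᵥ y = f j) ∧
      1 + γ ≤ ∑ᶠ e' ∈ G.edgeSet, (coef e' ⬝ᵥ y + const e')
  small : ∀ G ∈ 𝒢, G.CliqueFree 3 → ∀ y : Fin d → ℝ, (∀ i, A i ⬝ᵥ y ≤ b i) →
    (∀ j, C j ⬝ᵥ y = f j) → ∑ᶠ e' ∈ G.edgeSet, (coef e' ⬝ᵥ y + const e') ≤ 1

open Classical in
theorem fsum {n : ℕ} (G : SimpleGraph (Fin n)) (g : Sym2 (Fin n) → ℝ) :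
    ∑ᶠ e' ∈ G.edgeSet, g e' = ∑ e', if e' ∈ G.edgeSet then g e' else 0 := by
  rw [finsum_mem_eq_finite_toFinset_sum _ (Set.toFinite G.edgeSet), ← sum_filter]
  refine Finset.sum_congr ?_ fun _ _ => rfl
  ext e
  rw [Set.Finite.mem_toFinset, mem_filter]
  exact ⟨fun h => ⟨mem_univ _, h⟩, fun h => h.2⟩

/-- Farkas' lemma for one graph. -/
theorem farkas_mono {n s : ℕ} {γ : ℝ} {𝒢 : Set (SimpleGraph (Fin n))}
    (F : MonotoneLP n s γ 𝒢) (G : SimpleGraph (Fin n)) (hG : G ∈ 𝒢) (hfree : G.CliqueFree 3)
    (y0 : Fin F.d → ℝ) (hA0 : ∀ i, F.A i ⬝ᵥ y0 ≤ F.b i) (hC0 : ∀ j, F.C j ⬝ᵥ y0 = F.f j) :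
    ∃ (w0 : ℝ) (w : Fin s → ℝ), 0 ≤ w0 ∧ (∀ i, 0 ≤ w i) ∧
      ∀ y : Fin F.d → ℝ, (∀ j, F.C j ⬝ᵥ y = F.f j) →
        1 - ∑ᶠ e' ∈ G.edgeSet, (F.coef e' ⬝ᵥ y + F.const e') =
          w0 + ∑ i, w i * (F.b i - F.A i ⬝ᵥ y) := by
  classical
  let W : Submodule ℝ (Fin F.d → ℝ) := ⨅ j, LinearMap.ker (row (F.C j))
  have hW : ∀ y, y ∈ W ↔ ∀ j, F.C j ⬝ᵥ y = 0 := by
    intro y
    simp only [W, Submodule.mem_iInf, LinearMap.mem_ker, row_apply]
  let o : Fin F.d → ℝ := ∑ e', if e' ∈ G.edgeSet then F.coef e' else 0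
  let k : ℝ := ∑ e', if e' ∈ G.edgeSet then F.const e' else 0
  have ho : ∀ y : Fin F.d → ℝ, ∑ᶠ e' ∈ G.edgeSet, (F.coef e' ⬝ᵥ y + F.const e') = o ⬝ᵥ y + k := by
    intro y
    rw [fsum]
    have : o ⬝ᵥ y = ∑ e', if e' ∈ G.edgeSet then F.coef e' ⬝ᵥ y else 0 := by
      simp only [o, sum_dotProduct]
      refine Finset.sum_congr rfl fun e' _ => ?_
      split_ifs
      · rfl
      · rw [zero_dotProduct]
    rw [this, ← sum_add_distrib]
    refine Finset.sum_congr rfl fun e' _ => ?_
    split_ifs
    · rfl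
    · rw [add_zero]
  obtain ⟨w0, w, h0, hw, hx⟩ := H575R2.farkas_affine s
    (fun i => (row (F.A i)).comp W.subtype) (fun i => F.b i - F.A i ⬝ᵥ y0)
    ((row o).comp W.subtype) (1 - k - o ⬝ᵥ y0) 0
    (fun i => by
      have := hA0 i
      simp only [map_zero]
      linarith)
    (fun x hx => by
      have h1 := F.small G hG hfree (y0 + x) (fun i => by
          have := hx i
          simp only [LinearMap.comp_apply, Submodule.subtype_apply, row_apply] at this
          rw [dotProduct_add]
          linarith)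
        (fun j => by
          rw [dotProduct_add, hC0 j, (hW x.1).1 x.2 j, add_zero])
      rw [ho] at h1
      simp only [LinearMap.comp_apply, Submodule.subtype_apply, row_apply]
      rw [dotProduct_add] at h1
      linarith)
  refine ⟨w0, w, h0, hw, fun y hy => ?_⟩
  have hmem : y - y0 ∈ W := by
    rw [hW]
    intro j
    rw [dotProduct_sub, hy j, hC0 j, sub_self]
  have h1 := hx ⟨y - y0, hmem⟩
  simp only [LinearMap.comp_apply, Submodule.subtype_apply, row_apply, dotProduct_sub] at h1
  rw [ho]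
  have h3 : 1 - (o ⬝ᵥ y + k) = 1 - k - o ⬝ᵥ y0 - (o ⬝ᵥ y - o ⬝ᵥ y0) := by ring
  rw [h3, h1]
  congr 1
  refine Finset.sum_congr rfl fun i _ => ?_
  ring

theorem mono_lower {n s : ℕ} {γ : ℝ} {𝒢 : Set (SimpleGraph (Fin n))} (hγ : 0 < γ)
    (F : MonotoneLP n s γ 𝒢) (D : Finset (Fin n)) (hD : ∀ χ : D → Bool, bip D χ ∈ 𝒢)
    (hDT : ∀ T ⊆ D, T.card = 3 → tri T ∈ 𝒢) :
    γ ^ 7 * (D.card.choose 3 : ℝ) ≤ 49152 * ((s : ℝ) + 1) := by
  classical
  by_cases hD3 : D.card < 3
  · rw [Nat.choose_eq_zero_of_lt hD3]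
    have : (0 : ℝ) ≤ (s : ℝ) := Nat.cast_nonneg s
    simp only [Nat.cast_zero, mul_zero]
    linarith
  · push Not at hD3
    obtain ⟨T0, hT0D, hT0⟩ := exists_subset_card_eq hD3
    obtain ⟨y0, hy1, hy2, -⟩ := F.large (tri T0) (hDT T0 hT0D hT0) (tri_clique T0 hT0)
    choose w0 w hw0 hw hfar using fun χ : D → Bool =>
      farkas_mono F (bip D χ) (hD χ) (bip_free D χ) y0 hy1 hy2
    let mp : Finset D → Finset (Fin n) := fun T => T.map (Function.Embedding.subtype _)
    have hmp : ∀ T : Finset D, T.card = 3 → (mp T).card = 3 := fun T hT => by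
      simp only [mp, card_map, hT]
    have hmpD : ∀ T : Finset D, mp T ⊆ D := fun T x hx => by
      simp only [mp, mem_map, Function.Embedding.subtype_apply] at hx
      obtain ⟨y, -, rfl⟩ := hx
      exact y.2
    have hpt : ∀ T : Finset D, ∃ y : Fin F.d → ℝ, T.card = 3 →
        (∀ i, F.A i ⬝ᵥ y ≤ F.b i) ∧ (∀ j, F.C j ⬝ᵥ y = F.f j) ∧
        1 + γ ≤ ∑ᶠ e' ∈ (tri (mp T)).edgeSet, (F.coef e' ⬝ᵥ y + F.const e') := by
      intro T
      by_cases hT : T.card = 3
      · obtain ⟨y, hy⟩ := F.large (tri (mp T)) (hDT _ (hmpD T) (hmp T hT))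
          (tri_clique _ (hmp T hT))
        exact ⟨y, fun _ => hy⟩
      · exact ⟨0, fun h => absurd h hT⟩
    choose pt hptT using hpt
    let a : Finset D → Sym2 (Fin n) → ℝ := fun T e' => F.coef e' ⬝ᵥ pt T + F.const e'
    have ha0 : ∀ T : Finset D, T.card = 3 → ∀ e', 0 ≤ a T e' := fun T hT e' =>
      F.nonneg e' (pt T) (hptT T hT).1 (hptT T hT).2.1
    have key := rank_core (V := D) γ (γ / 2) hγ
      (fun χ T => 1 - ∑ᶠ e' ∈ (bip D χ).edgeSet, a T e')
      (fun χ T hT => by
        have : 0 ≤ ∑ᶠ e' ∈ (bip D χ).edgeSet, a T e' := by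
          rw [fsum]
          refine sum_nonneg fun e' _ => ?_
          split_ifs
          · exact ha0 T hT e'
          · exact le_rfl
        linarith)
      (fun T hT => by
        have e1 : ∑ χ : D → Bool, (1 - ∑ᶠ e' ∈ (bip D χ).edgeSet, a T e') * (Y T χ - 1 - γ) =
            -((1 + γ) * 2 ^ Fintype.card D) -
              ∑ e', a T e' * ∑ χ : D → Bool, (if e' ∈ (bip D χ).edgeSet then (1 : ℝ) else 0) *
                (Y T χ - 1 - γ) := by
          have e2 : ∑ e', a T e' * ∑ χ : D → Bool,
              (if e' ∈ (bip D χ).edgeSet then (1 : ℝ) else 0) * (Y T χ - 1 - γ) =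
              ∑ χ : D → Bool, (∑ᶠ e' ∈ (bip D χ).edgeSet, a T e') * (Y T χ - 1 - γ) := by
            simp only [fsum, mul_sum, sum_mul]
            rw [sum_comm]
            refine Finset.sum_congr rfl fun χ _ => Finset.sum_congr rfl fun e' _ => ?_
            split_ifs <;> ring
          rw [e2]
          have e3 : ∀ χ : D → Bool, (1 - ∑ᶠ e' ∈ (bip D χ).edgeSet, a T e') * (Y T χ - 1 - γ) =
              Y T χ - (1 + γ) * 1 - (∑ᶠ e' ∈ (bip D χ).edgeSet, a T e') * (Y T χ - 1 - γ) := by
            intro χ; ring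
          rw [Finset.sum_congr rfl (fun χ _ => e3 χ), sum_sub_distrib, sum_sub_distrib, ← mul_sum,
            sum_Y T hT, sum_one]
          ring
        rw [e1]
        have h2n : (0 : ℝ) < 2 ^ Fintype.card D := by positivity
        -- the terms of the edges
        have h1 : ∀ e' : Sym2 (Fin n), a T e' * ∑ χ : D → Bool,
            (if e' ∈ (bip D χ).edgeSet then (1 : ℝ) else 0) * (Y T χ - 1 - γ) ≤
            if e' ∈ (tri (mp T)).edgeSet then
              a T e' * -((1 + γ / 2) * 2 ^ Fintype.card D) else 0 := by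
          intro e'
          have hpos := ha0 T hT e'
          refine le_trans (mul_le_mul_of_nonneg_left (c := if e' ∈ (tri (mp T)).edgeSet then
              -((1 + γ / 2) * 2 ^ Fintype.card D) else 0) ?_ hpos) (le_of_eq ?_)
          · revert hpos
            refine Sym2.ind (fun x y => ?_) e'
            intro _
            by_cases hx : x ∈ D
            · by_cases hy : y ∈ D
              · by_cases hxy : x = y
                · subst hxy
                  have k1 : ∀ χ : D → Bool, s(x, x) ∉ (bip D χ).edgeSet := fun χ h =>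
                    (bip D χ).loopless.irrefl x h
                  have k2 : s(x, x) ∉ (tri (mp T)).edgeSet := fun h =>
                    (tri (mp T)).loopless.irrefl x h
                  simp [k1, k2]
                · have h3 := cut_le (⟨x, hx⟩ : D) ⟨y, hy⟩
                    (fun h => hxy (congrArg Subtype.val h)) γ hγ.le T hT
                  have k1 : ∀ χ : D → Bool, s(x, y) ∈ (bip D χ).edgeSet ↔
                      χ ⟨x, hx⟩ ≠ χ ⟨y, hy⟩ := fun χ =>
                    ⟨fun ⟨_, _, h⟩ => h, fun h => ⟨hx, hy, h⟩⟩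
                  have k2 : s(x, y) ∈ (tri (mp T)).edgeSet ↔
                      (⟨x, hx⟩ : D) ∈ T ∧ (⟨y, hy⟩ : D) ∈ T := by
                    constructor
                    · rintro ⟨h4, h5, -⟩
                      simp only [mp, mem_map, Function.Embedding.subtype_apply] at h4 h5
                      obtain ⟨x', hx', h6⟩ := h4
                      obtain ⟨y', hy', h7⟩ := h5
                      constructor
                      · convert hx'
                        exact h6.symm
                      · convert hy'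
                        exact h7.symm
                    · rintro ⟨h4, h5⟩
                      exact ⟨mem_map.2 ⟨_, h4, rfl⟩, mem_map.2 ⟨_, h5, rfl⟩, hxy⟩
                  simp only [k1, k2]
                  exact h3
              · have k1 : ∀ χ : D → Bool, s(x, y) ∉ (bip D χ).edgeSet := fun χ ⟨_, h, _⟩ => hy h
                have k2 : s(x, y) ∉ (tri (mp T)).edgeSet := by
                  rintro ⟨-, h, -⟩
                  simp only [mp, mem_map, Function.Embedding.subtype_apply] at h
                  obtain ⟨y', -, h6⟩ := h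
                  exact hy (h6 ▸ y'.2)
                simp [k1, k2]
            · have k1 : ∀ χ : D → Bool, s(x, y) ∉ (bip D χ).edgeSet := fun χ ⟨h, _, _⟩ => hx h
              have k2 : s(x, y) ∉ (tri (mp T)).edgeSet := by
                rintro ⟨h, -, -⟩
                simp only [mp, mem_map, Function.Embedding.subtype_apply] at h
                obtain ⟨y', -, h6⟩ := h
                exact hx (h6 ▸ y'.2)
              simp [k1, k2]
          · split_ifs <;> ring
        have h2 := sum_le_sum (s := (univ : Finset (Sym2 (Fin n)))) fun e' _ => h1 e'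
        have e4 : (∑ e' : Sym2 (Fin n), if e' ∈ (tri (mp T)).edgeSet then
              a T e' * -((1 + γ / 2) * 2 ^ Fintype.card D) else 0) =
            -((1 + γ / 2) * 2 ^ Fintype.card D) * ∑ᶠ e' ∈ (tri (mp T)).edgeSet, a T e' := by
          rw [fsum, mul_sum]
          refine Finset.sum_congr rfl fun e' _ => ?_
          split_ifs <;> ring
        rw [e4] at h2
        have h3 : 1 + γ ≤ ∑ᶠ e' ∈ (tri (mp T)).edgeSet, a T e' := (hptT T hT).2.2
        have h5 : (0 : ℝ) < (1 + γ / 2) * 2 ^ Fintype.card D := by positivity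
        have h6 := mul_le_mul_of_nonneg_left h3 h5.le
        nlinarith [mul_pos hγ h2n, mul_pos (mul_pos hγ hγ) h2n])
      (ι := Option (Fin s))
      (fun i χ => match i with
        | none => w0 χ
        | some i => w χ i)
      (fun i T => match i with
        | none => 1
        | some i => F.b i - F.A i ⬝ᵥ pt T)
      (fun i χ => by
        cases i with
        | none => exact hw0 χ
        | some i => exact hw χ i)
      (fun i T hT => by
        cases i with
        | none => exact zero_le_one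
        | some i =>
          have := (hptT T hT).1 i
          show 0 ≤ F.b i - F.A i ⬝ᵥ pt T
          linarith)
      (fun χ T hT => by
        rw [Fintype.sum_option]
        show w0 χ * 1 + ∑ i, w χ i * (F.b i - F.A i ⬝ᵥ pt T) = _
        rw [mul_one, ← hfar χ (pt T) (hptT T hT).2.1])
    rw [Fintype.card_coe, Fintype.card_option, Fintype.card_fin] at key
    push_cast at key
    have h7 : (0 : ℝ) < γ ^ 6 := by positivity
    have h8 := mul_le_mul_of_nonneg_right key h7.le
    have e5 : 24576 / γ ^ 6 * ((s : ℝ) + 1) * γ ^ 6 = 24576 * ((s : ℝ) + 1) := by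
      field_simp
    have e6 : γ / 2 * (D.card.choose 3 : ℝ) * γ ^ 6 = γ ^ 7 * (D.card.choose 3 : ℝ) / 2 := by ring
    rw [e5, e6] at h8
    linarith

/-- the trivial monotone linear program -/
theorem mono_upper (n : ℕ) (γ : ℝ) (hγ1 : γ ≤ 1 / 2) :
    Nonempty (MonotoneLP n (n.choose 3) γ Set.univ) := by
  classical
  have hcard : Fintype.card {T : Finset (Fin n) // T.card = 3} = n.choose 3 := by
    rw [Fintype.card_finset_len, Fintype.card_fin]
  let φ : Fin (n.choose 3) ≃ {T : Finset (Fin n) // T.card = 3} :=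
    (Fintype.equivFinOfCardEq hcard).symm
  let z : Sym2 (Fin n) → Fin (n.choose 3) → ℝ := fun e' i =>
    if e' ∈ (tri (φ i).1).edgeSet then 1 / 2 else 0
  have hsum : ∀ (G : SimpleGraph (Fin n)) (y : Fin (n.choose 3) → ℝ),
      ∑ᶠ e' ∈ G.edgeSet, (z e' ⬝ᵥ y + 0) = ∑ i, (inside G (φ i).1 : ℝ) / 2 * y i := by
    intro G y
    rw [fsum]
    have e1 : ∀ e' : Sym2 (Fin n), (if e' ∈ G.edgeSet then z e' ⬝ᵥ y + 0 else 0) =
        ∑ i, (if e' ∈ G.edgeSet ∧ e' ∈ (tri (φ i).1).edgeSet then (1 : ℝ) / 2 else 0) * y i := by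
      intro e'
      by_cases h : e' ∈ G.edgeSet
      · simp [h, z, dotProduct]
      · simp [h]
    rw [Finset.sum_congr rfl (fun e' _ => e1 e'), sum_comm]
    refine Finset.sum_congr rfl fun i _ => ?_
    rw [← sum_mul]
    congr 1
    rw [← sum_filter, sum_const, nsmul_eq_mul]
    have e2 : ((univ.filter fun e' : Sym2 (Fin n) =>
        e' ∈ G.edgeSet ∧ e' ∈ (tri (φ i).1).edgeSet).card : ℝ) = (inside G (φ i).1 : ℝ) := by
      unfold inside
      rw [← Set.ncard_coe_finset]
      congr 2
      ext e'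
      simp only [coe_filter, mem_univ, true_and, Set.mem_setOf_eq]
      refine Sym2.ind (fun x y => ?_) e'
      constructor
      · rintro ⟨h1, h2, h3, -⟩
        refine ⟨h1, fun v hv => ?_⟩
        rw [Sym2.mem_iff] at hv
        rcases hv with rfl | rfl
        · exact h2
        · exact h3
      · rintro ⟨h1, h2⟩
        exact ⟨h1, h2 x (Sym2.mem_mk_left x y), h2 y (Sym2.mem_mk_right x y), h1.ne⟩
    rw [e2]
    ring
  refine ⟨{ d := n.choose 3, e := 1
            A := fun i => Pi.single i (-1), b := fun _ => 0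
            C := fun _ _ => 1, f := fun _ => 1
            coef := z
            const := fun _ => 0
            nonneg := ?_, large := ?_, small := ?_ }⟩
  · intro e' y hy1 _
    rw [add_zero]
    refine sum_nonneg fun i _ => mul_nonneg ?_ ?_
    · simp only [z]
      split_ifs <;> norm_num
    · have := hy1 i
      rw [single_dotProduct] at this
      linarith
  · intro G _ hG
    unfold SimpleGraph.CliqueFree at hG
    push Not at hG
    obtain ⟨T, hT⟩ := hG
    have hT3 : T.card = 3 := hT.card_eq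
    refine ⟨fun i => if (φ i).1 = T then 1 else 0, ?_, ?_, ?_⟩
    · intro i
      rw [single_dotProduct]
      split_ifs <;> norm_num
    · intro j
      simp only [dotProduct, one_mul]
      rw [Finset.sum_eq_single (φ.symm ⟨T, hT3⟩)]
      · simp
      · intro i _ hi
        rw [if_neg]
        intro h
        exact hi (by rw [Equiv.eq_symm_apply]; exact Subtype.ext h)
      · intro h; exact absurd (mem_univ _) h
    · rw [hsum, Finset.sum_eq_single (φ.symm ⟨T, hT3⟩)]
      · have h3 : inside G T = 3 := by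
          obtain ⟨a, b, c, hab, hac, hbc, rfl⟩ := card_eq_three.1 hT3
          rw [inside_triple G a b c hab hac hbc]
          have hcl := hT.isClique
          rw [if_pos (hcl (by simp) (by simp) hab), if_pos (hcl (by simp) (by simp) hac),
            if_pos (hcl (by simp) (by simp) hbc)]
        simp only [Equiv.apply_symm_apply, h3]
        norm_num
        linarith
      · intro i _ hi
        rw [if_neg, mul_zero]
        intro h
        exact hi (by rw [Equiv.eq_symm_apply]; exact Subtype.ext h)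
      · intro h; exact absurd (mem_univ _) h
  · intro G _ hG y hy1 hy2
    rw [hsum]
    have h0 : ∀ i, 0 ≤ y i := by
      intro i
      have := hy1 i
      rw [single_dotProduct] at this
      linarith
    have h1 : ∑ i, y i = 1 := by
      have := hy2 0
      simpa [dotProduct] using this
    have h2 : ∑ i, (inside G (φ i).1 : ℝ) / 2 * y i ≤ ∑ i, 1 * y i := by
      refine sum_le_sum fun i _ => mul_le_mul_of_nonneg_right ?_ (h0 i)
      have : (inside G (φ i).1 : ℝ) ≤ 2 := by exact_mod_cast inside_le G hG (φ i).1 (φ i).2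
      linarith
    rw [← mul_sum, h1] at h2
    linarith

end Pool.Agent.L5helper56.LPT
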