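import Pool.Agent.L5helper56.LPT.Core

/-! The matrix of slacks of the complete bipartite graphs against the triples has a large
nonnegative rank. -/

set_option autoImplicit false

namespace Pool.Agent.L5helper56.LPT

open Finset Real

variable {V : Type} [Fintype V] [DecidableEq V]

/-- the sum of the three products of signs in a triple -/
noncomputable def Y (T : Finset V) (χ : V → Bool) : ℝ := ((∑ a ∈ T, sg χ a) ^ 2 - 3) / 2

omit [Fintype V] in
theorem Y_eq (a b c : V) (hab : a ≠ b) (hac : a ≠ c) (hbc : b ≠ c) (χ : V → Bool) :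
    Y {a, b, c} χ = sg χ a * sg χ b + sg χ b * sg χ c + sg χ c * sg χ a := by
  unfold Y
  rw [sum_insert (by simp [hab, hac]), sum_insert (by simp [hbc]), sum_singleton]
  have h1 := sg_sq χ a
  have h2 := sg_sq χ b
  have h3 := sg_sq χ c
  nlinarith

omit [Fintype V] in
theorem Y_cases (T : Finset V) (hT : T.card = 3) (χ : V → Bool) : Y T χ = 3 ∨ Y T χ = -1 := by
  obtain ⟨a, b, c, hab, hac, hbc, rfl⟩ := card_eq_three.1 hT
  rw [Y_eq a b c hab hac hbc]
  rcases sg_cases χ a with h | h <;> rcases sg_cases χ b with h' | h' <;>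
    rcases sg_cases χ c with h'' | h'' <;> rw [h, h', h''] <;> norm_num

theorem sum_pair (a b : V) (hab : a ≠ b) : ∑ χ : V → Bool, sg χ a * sg χ b = 0 := by
  have h : ∑ χ : V → Bool, sg χ a * sg χ b = ∑ χ : V → Bool, -(sg χ a * sg χ b) := by
    rw [← Equiv.sum_comp (flipE b)]
    refine sum_congr rfl fun χ _ => ?_
    have e2 : (flipE b) χ = flipAt b χ := rfl
    rw [e2, sg_flip_same, sg_flip_ne χ a b hab]
    ring
  rw [sum_neg_distrib] at h
  linarith

theorem sum_Y (T : Finset V) (hT : T.card = 3) : ∑ χ : V → Bool, Y T χ = 0 := by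
  obtain ⟨a, b, c, hab, hac, hbc, rfl⟩ := card_eq_three.1 hT
  simp only [Y_eq a b c hab hac hbc, sum_add_distrib, sum_pair a b hab, sum_pair b c hbc,
    sum_pair c a hac.symm]
  norm_num

theorem sum_one : ∑ _χ : V → Bool, (1 : ℝ) = 2 ^ Fintype.card V := by
  simp

theorem triple_bound (u : (V → Bool) → ℝ) (hu : ∀ χ, 0 ≤ u χ) (c : ℝ) (hc : 0 ≤ c)
    (T : Finset V) (hT : T.card = 3) :
    ∑ χ, u χ * (Y T χ - 1 - c) ≤ if T ⊆ corrSet u (c / 2) then 2 * tot u else 0 := by
  have ht : 0 ≤ tot u := sum_nonneg fun χ _ => hu χ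
  obtain ⟨x, y, z, hxy, hxz, hyz, rfl⟩ := card_eq_three.1 hT
  have e : ∑ χ, u χ * (Y {x, y, z} χ - 1 - c) =
      corr u x y + corr u y z + corr u z x - (1 + c) * tot u := by
    unfold corr tot
    rw [mul_sum, ← sum_add_distrib, ← sum_add_distrib, ← sum_sub_distrib]
    refine sum_congr rfl fun χ _ => ?_
    rw [Y_eq x y z hxy hxz hyz]
    ring
  have h1 := corr_le u hu x y
  have h2 := corr_le u hu y z
  have h3 := corr_le u hu z x
  have h0 : 0 ≤ c * tot u := mul_nonneg hc ht
  rw [e]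
  split_ifs with hsub
  · linarith
  · have key : ∀ w p q : V, p ≠ w → q ≠ w → w ∉ corrSet u (c / 2) →
        corr u p w < c / 2 * tot u ∧ corr u q w < c / 2 * tot u := by
      intro w p q hp hq hw
      unfold corrSet at hw
      rw [mem_filter] at hw
      push Not at hw
      exact ⟨hw (mem_univ _) p hp, hw (mem_univ _) q hq⟩
    rw [not_subset] at hsub
    obtain ⟨w, hw, hw2⟩ := hsub
    rw [mem_insert, mem_insert, mem_singleton] at hw
    rcases hw with rfl | rfl | rfl
    · obtain ⟨k1, k2⟩ := key w y z hxy.symm hxz.symm hw2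
      rw [corr_comm u w y] at *
      linarith
    · obtain ⟨k1, k2⟩ := key w x z hxy hyz.symm hw2
      rw [corr_comm u w z] at *
      linarith
    · obtain ⟨k1, k2⟩ := key w x y hxz hyz hw2
      rw [corr_comm u w x] at *
      linarith

/-- a rank one piece -/
theorem piece_bound (u : (V → Bool) → ℝ) (hu : ∀ χ, 0 ≤ u χ) (hu3 : ∀ χ, u χ ≤ 3)
    (v : Finset V → ℝ) (hv : ∀ T : Finset V, T.card = 3 → 0 ≤ v T ∧ v T ≤ 1) (c : ℝ) (hc : 0 < c) :
    ∑ T ∈ (univ : Finset V).powersetCard 3, v T * ∑ χ, u χ * (Y T χ - 1 - c) ≤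
      384 / (c / 2) ^ 6 * 2 ^ Fintype.card V := by
  have ht : 0 ≤ tot u := sum_nonneg fun χ _ => hu χ
  have h1 : ∑ T ∈ (univ : Finset V).powersetCard 3, v T * ∑ χ, u χ * (Y T χ - 1 - c) ≤
      ∑ T ∈ (univ : Finset V).powersetCard 3, if T ⊆ corrSet u (c / 2) then 2 * tot u else 0 := by
    refine sum_le_sum fun T hT => ?_
    have hT3 := (mem_powersetCard.1 hT).2
    have h2 := triple_bound u hu c hc.le T hT3
    obtain ⟨h3, h4⟩ := hv T hT3
    have h5 : (0 : ℝ) ≤ if T ⊆ corrSet u (c / 2) then 2 * tot u else 0 := by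
      split_ifs <;> linarith
    calc v T * ∑ χ, u χ * (Y T χ - 1 - c) ≤ v T * (if T ⊆ corrSet u (c / 2) then 2 * tot u else 0) :=
          mul_le_mul_of_nonneg_left h2 h3
      _ ≤ 1 * (if T ⊆ corrSet u (c / 2) then 2 * tot u else 0) := mul_le_mul_of_nonneg_right h4 h5
      _ = _ := one_mul _
  refine h1.trans ?_
  rw [← sum_filter, sum_const, nsmul_eq_mul]
  have h2 : ((univ : Finset V).powersetCard 3).filter (fun T => T ⊆ corrSet u (c / 2)) ⊆
      (corrSet u (c / 2)).powersetCard 3 := by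
    intro T hT
    rw [mem_filter, mem_powersetCard] at hT
    exact mem_powersetCard.2 ⟨hT.2, hT.1.2⟩
  have h3 : ((((univ : Finset V).powersetCard 3).filter
      (fun T => T ⊆ corrSet u (c / 2))).card : ℝ) ≤ ((corrSet u (c / 2)).powersetCard 3).card := by
    exact_mod_cast card_le_card h2
  have h4 := mass_triples u hu hu3 (c / 2) (by linarith)
  calc _ ≤ (((corrSet u (c / 2)).powersetCard 3).card : ℝ) * (2 * tot u) :=
        mul_le_mul_of_nonneg_right h3 (by linarith)
    _ = 2 * (tot u * (((corrSet u (c / 2)).powersetCard 3).card : ℝ)) := by ring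
    _ ≤ 2 * (192 / (c / 2) ^ 6 * 2 ^ Fintype.card V) := by linarith
    _ = _ := by ring

/-- The nonnegative rank of the slack matrix. -/
theorem rank_bound (γ : ℝ) (hγ : 0 < γ) (hγ1 : γ ≤ 1) (X : Finset (V → Bool))
    (hX : (1 - γ / 24) * 2 ^ Fintype.card V ≤ X.card) {ι : Type} [Fintype ι]
    (u : ι → (V → Bool) → ℝ) (v : ι → Finset V → ℝ) (hu : ∀ i, ∀ χ ∈ X, 0 ≤ u i χ)
    (hv : ∀ i, ∀ T : Finset V, T.card = 3 → 0 ≤ v i T)
    (hM : ∀ χ ∈ X, ∀ T : Finset V, T.card = 3 → ∑ i, u i χ * v i T = (3 + Y T χ) / 2 - γ) :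
    γ ^ 7 * ((Fintype.card V).choose 3 : ℝ) ≤ 10 ^ 8 * (Fintype.card ι : ℝ) := by
  classical
  set c : ℝ := γ / 3 with hc
  have hc0 : 0 < c := by positivity
  set n := Fintype.card V with hn
  have h2n : (0 : ℝ) < 2 ^ n := by positivity
  have hYb : ∀ T : Finset V, T.card = 3 → ∀ χ, (3 + Y T χ) / 2 - γ ≤ 3 := by
    intro T hT χ
    rcases Y_cases T hT χ with h | h <;> rw [h] <;> linarith
  -- lower bound
  have hlow : γ / 4 * (n.choose 3 : ℝ) * 2 ^ n ≤
      ∑ T ∈ (univ : Finset V).powersetCard 3,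
        ∑ χ ∈ X, ((3 + Y T χ) / 2 - γ) * (Y T χ - 1 - c) := by
    have h1 : ∀ T ∈ (univ : Finset V).powersetCard 3, γ / 4 * 2 ^ n ≤
        ∑ χ ∈ X, ((3 + Y T χ) / 2 - γ) * (Y T χ - 1 - c) := by
      intro T hT
      have hT3 := (mem_powersetCard.1 hT).2
      have e1 : ∑ χ : V → Bool, ((3 + Y T χ) / 2 - γ) * (Y T χ - 1 - c) =
          2 ^ n * (γ - c * (3 / 2 - γ)) := by
        have h3 : ∀ χ : V → Bool, ((3 + Y T χ) / 2 - γ) * (Y T χ - 1 - c) =
            (γ - c * (3 / 2 - γ)) * 1 + ((4 - 2 * γ - c) / 2) * Y T χ := by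
          intro χ
          rcases Y_cases T hT3 χ with h | h <;> rw [h] <;> ring
        rw [sum_congr rfl fun χ _ => h3 χ, sum_add_distrib, ← mul_sum, ← mul_sum, sum_Y T hT3,
          sum_one]
        ring
      have e2 := sum_add_sum_compl X (fun χ => ((3 + Y T χ) / 2 - γ) * (Y T χ - 1 - c))
      have e3 : ∑ χ ∈ Xᶜ, ((3 + Y T χ) / 2 - γ) * (Y T χ - 1 - c) ≤ 6 * (Xᶜ.card : ℝ) := by
        have : ∑ χ ∈ Xᶜ, ((3 + Y T χ) / 2 - γ) * (Y T χ - 1 - c) ≤ ∑ _χ ∈ Xᶜ, (6 : ℝ) := by
          refine sum_le_sum fun χ _ => ?_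
          rcases Y_cases T hT3 χ with h | h <;> rw [h] <;> nlinarith
        refine this.trans (le_of_eq ?_)
        rw [sum_const, nsmul_eq_mul]; ring
      have e4 : (Xᶜ.card : ℝ) ≤ γ / 24 * 2 ^ n := by
        have h4 : (X.card : ℝ) + (Xᶜ.card : ℝ) = 2 ^ n := by
          have := card_add_card_compl X
          have h5 : Fintype.card (V → Bool) = 2 ^ n := by simp [hn]
          rw [h5] at this
          exact_mod_cast this
        linarith
      have e5 : c * (3 / 2 - γ) ≤ γ / 2 := by rw [hc]; nlinarith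
      nlinarith
    have h2 := sum_le_sum h1
    rw [sum_const, card_powersetCard, card_univ, nsmul_eq_mul] at h2
    calc γ / 4 * (n.choose 3 : ℝ) * 2 ^ n = ((Fintype.card V).choose 3 : ℝ) * (γ / 4 * 2 ^ n) := by
          rw [hn]; ring
      _ ≤ _ := h2
  -- upper bound
  have hup : ∑ T ∈ (univ : Finset V).powersetCard 3,
        ∑ χ ∈ X, ((3 + Y T χ) / 2 - γ) * (Y T χ - 1 - c) ≤
      (Fintype.card ι : ℝ) * (384 / (c / 2) ^ 6 * 2 ^ n) := by
    have e1 : ∑ T ∈ (univ : Finset V).powersetCard 3,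
        ∑ χ ∈ X, ((3 + Y T χ) / 2 - γ) * (Y T χ - 1 - c) =
        ∑ i, ∑ T ∈ (univ : Finset V).powersetCard 3,
          v i T * ∑ χ, (if χ ∈ X then u i χ else 0) * (Y T χ - 1 - c) := by
      conv_rhs => rw [sum_comm]
      refine Finset.sum_congr rfl fun T hT => ?_
      have hT3 := (mem_powersetCard.1 hT).2
      have e2 : ∀ i, v i T * ∑ χ, (if χ ∈ X then u i χ else 0) * (Y T χ - 1 - c) =
          ∑ χ ∈ X, (u i χ * v i T) * (Y T χ - 1 - c) := by
        intro i
        simp only [ite_mul, zero_mul]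
        rw [← sum_filter, mul_sum]
        have : (univ.filter fun χ => χ ∈ X) = X := by ext; simp
        rw [this]
        exact sum_congr rfl fun χ _ => by ring
      rw [Finset.sum_congr rfl (fun i (_ : i ∈ (univ : Finset ι)) => e2 i), sum_comm]
      refine sum_congr rfl fun χ hχ => ?_
      rw [← sum_mul, hM χ hχ T hT3]
    rw [e1]
    have h1 : ∀ i ∈ (univ : Finset ι), ∑ T ∈ (univ : Finset V).powersetCard 3,
          v i T * ∑ χ, (if χ ∈ X then u i χ else 0) * (Y T χ - 1 - c) ≤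
        384 / (c / 2) ^ 6 * 2 ^ n := by
      intro i _
      have hB : (0 : ℝ) ≤ 384 / (c / 2) ^ 6 * 2 ^ n := by positivity
      by_cases hz : ∀ T ∈ (univ : Finset V).powersetCard 3, v i T = 0
      · have hs : ∑ T ∈ (univ : Finset V).powersetCard 3,
            v i T * ∑ χ, (if χ ∈ X then u i χ else 0) * (Y T χ - 1 - c) = 0 := by
          refine Finset.sum_eq_zero fun T hT => ?_
          rw [hz T hT, zero_mul]
        rw [hs]
        exact hB
      · push Not at hz
        obtain ⟨T1, hT1, hv1⟩ := hz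
        obtain ⟨T0, hT0, hmax⟩ := exists_max_image ((univ : Finset V).powersetCard 3)
          (fun T => v i T) ⟨T1, hT1⟩
        have hT03 := (mem_powersetCard.1 hT0).2
        have hm : 0 < v i T0 := by
          have h3 := hmax T1 hT1
          have h4 := hv i T1 (mem_powersetCard.1 hT1).2
          have h5 : 0 < v i T1 := lt_of_le_of_ne h4 (Ne.symm hv1)
          linarith
        have h3 := piece_bound (fun χ => if χ ∈ X then u i χ * v i T0 else 0)
          (fun χ => by
            beta_reduce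
            split_ifs with h
            · exact mul_nonneg (hu i χ h) hm.le
            · exact le_rfl)
          (fun χ => by
            beta_reduce
            split_ifs with h
            · refine le_trans ?_ (hYb T0 hT03 χ)
              rw [← hM χ h T0 hT03]
              exact single_le_sum (f := fun i => u i χ * v i T0)
                (fun j _ => mul_nonneg (hu j χ h) (hv j T0 hT03)) (mem_univ i)
            · norm_num)
          (fun T => v i T / v i T0)
          (fun T hT => ⟨div_nonneg (hv i T hT) hm.le, by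
            rw [div_le_one hm]
            exact hmax T (mem_powersetCard.2 ⟨subset_univ _, hT⟩)⟩) c hc0
        refine le_trans (le_of_eq ?_) h3
        refine sum_congr rfl fun T _ => ?_
        have e3 : ∑ χ, (if χ ∈ X then u i χ * v i T0 else 0) * (Y T χ - 1 - c) =
            v i T0 * ∑ χ, (if χ ∈ X then u i χ else 0) * (Y T χ - 1 - c) := by
          rw [mul_sum]
          refine sum_congr rfl fun χ _ => ?_
          split_ifs <;> ring
        rw [e3, ← mul_assoc, div_mul_cancel₀ _ hm.ne']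
    have h2 := sum_le_sum h1
    rw [sum_const, card_univ, nsmul_eq_mul] at h2
    exact h2
  have h3 := hlow.trans hup
  have h4 : γ / 4 * (n.choose 3 : ℝ) ≤ (Fintype.card ι : ℝ) * (384 / (c / 2) ^ 6) := by
    have h5 : γ / 4 * (n.choose 3 : ℝ) * 2 ^ n ≤
        ((Fintype.card ι : ℝ) * (384 / (c / 2) ^ 6)) * 2 ^ n := by
      rw [mul_assoc (Fintype.card ι : ℝ)]; exact h3
    exact le_of_mul_le_mul_right h5 h2n
  have h6 : 384 / (c / 2) ^ 6 = 17915904 / γ ^ 6 := by
    rw [hc]; field_simp; norm_num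
  rw [h6] at h4
  have h7 : (0 : ℝ) < γ ^ 6 := by positivity
  have h8 : γ / 4 * (n.choose 3 : ℝ) * γ ^ 6 ≤ (Fintype.card ι : ℝ) * (17915904 / γ ^ 6) * γ ^ 6 :=
    mul_le_mul_of_nonneg_right h4 h7.le
  have h9 : (Fintype.card ι : ℝ) * (17915904 / γ ^ 6) * γ ^ 6 = 17915904 * (Fintype.card ι : ℝ) := by
    field_simp
  have h10 : (0 : ℝ) ≤ (Fintype.card ι : ℝ) := Nat.cast_nonneg _
  have h11 : γ / 4 * (n.choose 3 : ℝ) * γ ^ 6 = γ ^ 7 * (n.choose 3 : ℝ) / 4 := by ring
  rw [h9, h11] at h8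
  linarith

end Pool.Agent.L5helper56.LPT
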